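import Pool.Agent.H306R2.RG.Defs
import Pool.Agent.H306R2.RG.StubsB
import Pool.Agent.H423R2.RZA.ES3

set_option autoImplicit false

/-! Project RG, task ES3G: the sieved mean squares for a general family. -/

namespace Pool.Agent.H698R3

open Finset Filter Topology MeasureTheory Pool.Agent.H306R2.RZ Pool.Agent.H306R2.RG

/-- general form: limits of the sieved averages -/
theorem ES3G_lim (φ : FD) (P : ℕ) (hP : Odd P) (hPs : Squarefree P) (F : ℝ → ℝ)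
    (f : ℕ → ℝ → ℕ → ℝ) (l : ℝ)
    (hf : ∀ a L d, Odd a → f 1 L (a ^ 2 * d) = f a L d)
    (hlim : ∀ a, Odd a → ∀ c : ℝ, 0 < c →
      Tendsto (fun L : ℝ => EAg φ F (c * Real.exp L) (fun d => f a L d)) atTop (𝓝 l)) :
    Tendsto (fun L : ℝ => ESg φ P F (Real.exp L) (fun d => f 1 L d)) atTop (𝓝 (PiP P * l)) := by
  rw [← Pool.Agent.H423R2.RZA.ES3n.ES3_PiP P hPs, Finset.sum_mul]
  unfold ESg
  refine tendsto_finsetSum _ fun a ha => ?_
  have haP := Nat.dvd_of_mem_divisors ha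
  have ha1 : Odd a := Odd.of_dvd_nat hP haP
  have ha0 : 0 < a := Nat.pos_of_mem_divisors ha
  have h1 := (hlim a ha1 (1 / (a : ℝ) ^ 2) (by positivity)).const_mul
    (((ArithmeticFunction.moebius a : ℤ) : ℝ) / (a : ℝ) ^ 2)
  refine h1.congr fun L => ?_
  congr 1
  have h2 : 1 / (a : ℝ) ^ 2 * Real.exp L = Real.exp L / (a : ℝ) ^ 2 := by ring
  rw [h2]
  congr 1
  funext d
  exact (hf a L d ha1).symm

theorem ES3G (φ : FD) (hφ : FG φ) (P : ℕ) (hP : Odd P) (hPs : Squarefree P) (F : ℝ → ℝ)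
    (hF : TF F) (s θ : ℝ) (hA : Adm2 s θ) (w w' Q Q' : ℝ → ℝ)
    (h1 : Wt s w) (h2 : Wt s w') (h3 : Wt θ Q) (h4 : Wt θ Q') (m m' : ℝ) :
    Tendsto (fun L : ℝ => ESg φ P F (Real.exp L) (fun d => G0g φ 2 L m w Q d ^ 2)) atTop
      (𝓝 (PiP P * (φ.δ * Ft F 0 * (1 - m * mn w Q + m ^ 2 * BB w Q w Q)))) ∧
    Tendsto (fun L : ℝ => ESg φ P F (Real.exp L) (fun d => G1g φ 2 L m m' w w' Q Q' d ^ 2)) atTop
      (𝓝 (PiP P * (φ.δ * Ft F 0 * (m' ^ 2 * BB w Q w Q +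
        2 * m * m' * (BB w Q w' Q + BB w Q w Q') +
        m ^ 2 * (BB w' Q w' Q + BB w' Q w Q' + (BB w Q' w' Q + BB w Q' w Q')))))) := by
  have hq : ∀ a : ℕ, Odd a → Even (2 * a) ∧ 2 * a ≠ 0 := by
    intro a ha
    exact ⟨even_two_mul a, by rcases ha with ⟨k, rfl⟩; omega⟩
  have hE := fun (a : ℕ) (ha : Odd a) (L : ℝ) (v : ℝ → ℝ) (d : ℕ) =>
    StubsB.ES2G φ hφ a ha L v d
  constructor
  · refine ES3G_lim φ P hP hPs F (fun a L d => G0g φ (2 * a) L m w Q d ^ 2) _ ?_ ?_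
    · intro a L d ha
      simp only [mul_one]
      unfold G0g
      rw [(hE a ha L w d).1, (hE a ha L Q d).2]
    · intro a ha c hc
      exact (StubsB.GLimG φ hφ F hF (2 * a) (hq a ha).1 (hq a ha).2 c hc s θ hA w w' Q Q'
        h1 h2 h3 h4 m m').1
  · refine ES3G_lim φ P hP hPs F (fun a L d => G1g φ (2 * a) L m m' w w' Q Q' d ^ 2) _ ?_ ?_
    · intro a L d ha
      simp only [mul_one]
      unfold G1g
      rw [(hE a ha L w d).1, (hE a ha L Q d).2, (hE a ha L w' d).1, (hE a ha L Q' d).2]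
    · intro a ha c hc
      exact (StubsB.GLimG φ hφ F hF (2 * a) (hq a ha).1 (hq a ha).2 c hc s θ hA w w' Q Q'
        h1 h2 h3 h4 m m').2

end Pool.Agent.H698R3
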