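import Pool.Agent.H306R2.RG.Defs
import Pool.Agent.H306R2.RG.StubsB
import Pool.Agent.H692R2.RZ2_W0

set_option autoImplicit false

/-! Project RG, task MRG: the main range for a general family. -/

namespace Pool.Agent.H698R3

open Finset Filter Topology MeasureTheory Pool.Agent.H306R2.RZ Pool.Agent.H306R2.RG

open Classical in
theorem MRG (φ : FD) (hφ : FG φ) (hC : CG φ) (F : ℝ → ℝ) (hF : TF F) (hF0 : ∀ x, 0 ≤ F x)
    (P : ℕ) (hP : Odd P) (hPs : Squarefree P)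
    (δ : ℝ) (hδ : 0 < δ) (hδ1 : δ < 1 / 8) (χ : ℝ → ℝ)
    (θ' θ : ℝ) (hθ' : 0 < θ') (hθθ : θ' < θ)
    (hA : Adm2 (1 / 2 + 3 * δ) θ) (hχ : ST θ' θ χ) (c c' : ℝ → ℝ)
    (hc : ∀ x, HasDerivAt c (c' x) x) (hc' : Continuous c') (X0 : ℝ) (hX0 : 0 ≤ X0) (ε : ℝ)
    (hε : 0 < ε) :
    ∃ L0 : ℝ, ∀ L : ℝ, L0 ≤ L →
      cnt F L (SFg φ ∩ {d | bad1g φ L X0 d}) ≤
      PiP P * (φ.δ * Ft F 0) * (vv (c X0) (Bx χ X0) (nx χ) (ax X0) +
        ∫ x in (0 : ℝ)..X0, 2 * Real.sqrt (vv (c x) (Bx χ x) (nx χ) (ax x) *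
          ww (c x) (c' x) (Bx χ x) (Bx1 χ x) (nx χ) (ax x) (ax1 x) (ax2 x))) + ε := by
  obtain ⟨w1, w2, w3⟩ := Pool.Agent.H692R2.RZ2W0.W0
  obtain ⟨ρ, hρ⟩ := w1 δ hδ
  obtain ⟨κ, hκ⟩ := w2 δ 1 hδ one_pos
  obtain ⟨ζ, hζ⟩ := w3 (-1 / 2) (-1 / 4) (by norm_num)
  obtain ⟨L1, h1⟩ := StubsB.MR3G φ hφ F hF hF0 P hP hPs δ 1 hδ hδ1 one_pos le_rfl ρ κ ζ χ hρ hκ hζ θ' θ hθ' hθθ
    hA hχ c c' hc hc' X0 hX0 (ε / 2) (by linarith)
  obtain ⟨L2, h2⟩ := StubsB.MR4G φ hφ F hF hF0 δ 1 hδ hδ1 one_pos le_rfl ρ κ ζ χ hρ hκ hζ θ' θ hθ' hθθ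
    hA hχ c c' hc hc' X0 hX0 (ε / 2) (by linarith)
  refine ⟨max (max L1 L2) (4 * X0 + 1), fun L hL => ?_⟩
  have hL1 : L1 ≤ L := le_trans (le_trans (le_max_left _ _) (le_max_left _ _)) hL
  have hL2 : L2 ≤ L := le_trans (le_trans (le_max_right _ _) (le_max_left _ _)) hL
  have hL3 : 4 * X0 + 1 ≤ L := le_trans (le_max_right _ _) hL
  have k1 := h1 L hL1
  have k2 := h2 L hL2
  obtain ⟨A, hAd⟩ : ∃ A : ℕ → ℝ, A = fun d => Gtg φ L ρ ζ χ c d X0 ^ 2 +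
      ∫ x in (0 : ℝ)..X0, 2 * |Gtg φ L ρ ζ χ c d x| * |Gt1g φ L ρ ζ χ c c' d x| := ⟨_, rfl⟩
  obtain ⟨B, hBd⟩ : ∃ B : ℕ → ℝ, B = fun d => G0g φ 2 L (c X0) (Wf ρ κ X0) (qf ζ χ X0) d ^ 2 +
        ∫ x in (0 : ℝ)..X0, 2 * |G0g φ 2 L (c x) (Wf ρ κ x) (qf ζ χ x) d| *
          |G1g φ 2 L (c x) (c' x) (Wf ρ κ x) (Wf1 ρ κ x) (qf ζ χ x) (qf1 ζ χ x) d| := ⟨_, rfl⟩
  have hB0 : ∀ d, 0 ≤ B d := by
    intro d
    rw [hBd]
    refine add_nonneg (sq_nonneg _) (intervalIntegral.integral_nonneg hX0 fun x _ => ?_)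
    positivity
  rw [← hBd] at k1
  have k2' : EAg φ F (Real.exp L) (fun d => |A d - B d|) ≤ ε / 2 := by
    rw [hAd, hBd]
    exact k2
  have hX : 0 < Real.exp L := Real.exp_pos L
  rw [StubsB.ES1G φ hφ P hP hPs F hF (Real.exp L) hX B] at k1
  unfold EAg at k2'
  -- finite support
  obtain ⟨N, hN⟩ : ∃ N : ℕ, ∀ d : ℕ, N ≤ d → F ((d : ℝ) / Real.exp L) = 0 := by
    obtain ⟨R, hR⟩ := hF.cpt.isCompact.isBounded.subset_closedBall 0
    refine ⟨⌈(|R| + 1) * Real.exp L⌉₊, fun d hd => ?_⟩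
    by_contra hne
    have hmem : (d : ℝ) / Real.exp L ∈ tsupport F := subset_tsupport F (Function.mem_support.2 hne)
    have hb := hR hmem
    rw [Metric.mem_closedBall, dist_zero_right, Real.norm_eq_abs] at hb
    have h3 : (|R| + 1) * Real.exp L ≤ d := Nat.ceil_le.1 hd
    have h4 : |R| + 1 ≤ (d : ℝ) / Real.exp L := by
      rw [le_div_iff₀ hX]
      exact h3
    have h5 := le_abs_self ((d : ℝ) / Real.exp L)
    have h6 := le_abs_self R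
    linarith
  have s1 : Summable (fun d : ℕ => if φ.A d ∧ (∀ p ∈ P.primeFactors, ¬ p ^ 2 ∣ d) then
      F ((d : ℝ) / Real.exp L) * B d else 0) := by
    refine summable_of_ne_finset_zero (s := Finset.range N) fun d hd => ?_
    rw [hN d (by simpa using hd)]
    simp
  have s2 : Summable (fun d : ℕ => if φ.A d then F ((d : ℝ) / Real.exp L) * |A d - B d| else 0) := by
    refine summable_of_ne_finset_zero (s := Finset.range N) fun d hd => ?_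
    rw [hN d (by simpa using hd)]
    simp
  have s0 : Summable (fun d : ℕ => (SFg φ ∩ {d | bad1g φ L X0 d}).indicator
      (fun d => F ((d : ℝ) / Real.exp L)) d) := by
    refine summable_of_ne_finset_zero (s := Finset.range N) fun d hd => ?_
    unfold Set.indicator
    split_ifs
    · exact hN d (by simpa using hd)
    · rfl
  have hle : ∀ d : ℕ, (SFg φ ∩ {d | bad1g φ L X0 d}).indicator (fun d => F ((d : ℝ) / Real.exp L)) d ≤
      (if φ.A d ∧ (∀ p ∈ P.primeFactors, ¬ p ^ 2 ∣ d) then F ((d : ℝ) / Real.exp L) * B d else 0) +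
      (if φ.A d then F ((d : ℝ) / Real.exp L) * |A d - B d| else 0) := by
    intro d
    by_cases hd : d ∈ SFg φ ∩ {d | bad1g φ L X0 d}
    · rw [Set.indicator_of_mem hd]
      obtain ⟨⟨ho, hsq⟩, hbad⟩ := hd
      have hp : ∀ p ∈ P.primeFactors, ¬ p ^ 2 ∣ d := by
        intro p hp hdiv
        have h3 := hsq p (by rwa [← sq])
        exact (Nat.prime_of_mem_primeFactors hp).one_lt.ne' (Nat.isUnit_iff.1 h3)
      rw [if_pos ⟨ho, hp⟩, if_pos ho]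
      have h5 : 1 ≤ A d := by
        rw [hAd]
        exact StubsB.MR5G φ hφ hC δ hδ hδ1 ρ ζ χ hρ hζ θ' θ hθ' hθθ hA.hθ1 hχ c c' hc hc' X0 hX0 L hL3 d ⟨ho, hsq⟩ hbad
      have h6 : A d ≤ B d + |A d - B d| := by
        have := le_abs_self (A d - B d)
        linarith
      have h7 := hF0 ((d : ℝ) / Real.exp L)
      nlinarith
    · rw [Set.indicator_of_notMem hd]
      have h7 := hF0 ((d : ℝ) / Real.exp L)
      refine add_nonneg ?_ ?_
      · split_ifs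
        · exact mul_nonneg h7 (hB0 d)
        · exact le_rfl
      · split_ifs
        · exact mul_nonneg h7 (abs_nonneg _)
        · exact le_rfl
  have hsum := s0.tsum_le_tsum hle (s1.add s2)
  rw [s1.tsum_add s2] at hsum
  unfold cnt
  have hfin : (∑' d : ℕ, (SFg φ ∩ {d | bad1g φ L X0 d}).indicator (fun d => F ((d : ℝ) / Real.exp L)) d) /
      Real.exp L ≤ (∑' d : ℕ, if φ.A d ∧ (∀ p ∈ P.primeFactors, ¬ p ^ 2 ∣ d) then
      F ((d : ℝ) / Real.exp L) * B d else 0) / Real.exp L +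
      (∑' d : ℕ, if φ.A d then F ((d : ℝ) / Real.exp L) * |A d - B d| else 0) / Real.exp L := by
    rw [← add_div]
    gcongr
  linarith

end Pool.Agent.H698R3
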